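import Pool.Agent.Helper47.FLG.Pde

set_option autoImplicit false

namespace Pool.Agent.Helper47.FLG

open Finset Pool.Agent.Helper47.RFn

namespace P4

section gen

variable {P I B : Type} [DecidableEq P] [Fintype I] [CommRing B] [Algebra ℝ B]

/-- `Φ` is rotated in the positions `Q` and does not depend on the others -/
structure Rot (D : Derivation ℝ B B) (ρ : I → I → B) (Q : Finset P) (Φ : (P → I) → B) : Prop where
  der : ∀ s, D (Φ s) = ∑ q ∈ Q, ∑ e, ρ (s q) e * Φ (Function.update s q e)
  ind : ∀ s q e, q ∉ Q → Φ (Function.update s q e) = Φ s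

theorem Rot.one (D : Derivation ℝ B B) (ρ : I → I → B) : Rot (P := P) D ρ ∅ (fun _ => 1) :=
  ⟨fun s => by rw [sum_empty, Derivation.map_one_eq_zero], fun _ _ _ _ => rfl⟩

theorem Rot.mul {D : Derivation ℝ B B} {ρ : I → I → B} {Q Q' : Finset P} {Φ Ψ : (P → I) → B}
    (h : Rot D ρ Q Φ) (h' : Rot D ρ Q' Ψ) (hQ : Disjoint Q Q') :
    Rot D ρ (Q ∪ Q') (fun s => Φ s * Ψ s) := by
  constructor
  · intro s
    rw [Derivation.leibniz, h.der, h'.der, sum_union hQ, smul_eq_mul, smul_eq_mul, add_comm,
      mul_sum, mul_sum]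
    congr 1
    · apply sum_congr rfl
      intro q hq
      rw [mul_sum]
      apply sum_congr rfl
      intro e _
      rw [h'.ind s q e (disjoint_left.mp hQ hq)]
      ring
    · apply sum_congr rfl
      intro q hq
      rw [mul_sum]
      apply sum_congr rfl
      intro e _
      rw [h.ind s q e (disjoint_right.mp hQ hq)]
      ring
  · intro s q e hq
    rw [mem_union, not_or] at hq
    show Φ _ * Ψ _ = _
    rw [h.ind s q e hq.1, h'.ind s q e hq.2]

theorem Rot.prod {J : Type} [DecidableEq J] {D : Derivation ℝ B B} {ρ : I → I → B}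
    {Q : J → Finset P} {Φ : J → (P → I) → B} (h : ∀ j, Rot D ρ (Q j) (Φ j))
    (hQ : ∀ i j, i ≠ j → Disjoint (Q i) (Q j)) (A : Finset J) :
    Rot D ρ (A.biUnion Q) (fun s => ∏ j ∈ A, Φ j s) := by
  induction A using Finset.induction_on with
  | empty => simpa using Rot.one D ρ
  | insert a A ha ih =>
    have h1 := (h a).mul ih (by
      rw [disjoint_biUnion_right]
      intro j hj
      exact hQ a j (fun he => ha (he ▸ hj)))
    rw [biUnion_insert]
    have h2 : (fun s => ∏ j ∈ insert a A, Φ j s) = fun s => Φ a s * ∏ j ∈ A, Φ j s := by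
      funext s
      rw [prod_insert ha]
    rw [h2]
    exact h1

end gen

variable {n : ℕ} {T : ℝ}

/-- the rotation -/
def rho (F : FB n T) (k l a e : Ix n) : F.B := F.dl l a * F.dl k e - F.dl k a * F.dl l e

theorem dl_comm (F : FB n T) (a b : Ix n) : F.dl a b = F.dl b a := by
  unfold FB.dl
  by_cases h : a = b
  · rw [if_pos h, if_pos h.symm]
  · rw [if_neg h, if_neg (fun h' => h h'.symm)]

theorem sum_dl (F : FB n T) (k : Ix n) (f : Ix n → F.B) : ∑ e, F.dl k e * f e = f k := by
  unfold FB.dl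
  simp

theorem sum_rho (F : FB n T) (k l a : Ix n) (f : Ix n → F.B) :
    ∑ e, rho F k l a e * f e = F.dl l a * f k - F.dl k a * f l := by
  have h : ∀ e, rho F k l a e * f e = F.dl l a * (F.dl k e * f e) - F.dl k a * (F.dl l e * f e) := by
    intro e
    unfold rho
    ring
  rw [sum_congr rfl fun e _ => h e, sum_sub_distrib, ← mul_sum, ← mul_sum, sum_dl, sum_dl]

theorem tr_rho (F : FB n T) (k l : Ix n) : ∑ a, rho F k l a a = 0 := by
  have h : ∀ a, rho F k l a a = 0 := by
    intro a
    unfold rho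
    ring
  rw [sum_congr rfl fun a _ => h a, sum_const_zero]

theorem V_dl (F : FB n T) (D : Derivation ℝ F.B F.B) (a b : Ix n) : D (F.dl a b) = 0 := by
  unfold FB.dl
  by_cases h : a = b
  · rw [if_pos h, Derivation.map_one_eq_zero]
  · rw [if_neg h, map_zero]

theorem D_dl_mul (F : FB n T) (D : Derivation ℝ F.B F.B) (a b : Ix n) (f : F.B) :
    D (F.dl a b * f) = F.dl a b * D f := by
  rw [Derivation.leibniz, V_dl, smul_zero, add_zero, smul_eq_mul]

variable {P : Type} [DecidableEq P]

theorem rot_nu (F : FB n T) (hF : F.Full) (k l : Ix n) (q : P) :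
    Rot (F.V k l) (rho F k l) {q} (fun s : P → Ix n => F.nu (s q)) := by
  constructor
  · intro s
    rw [sum_singleton]
    simp only [Function.update_self]
    rw [sum_rho, hF.Vnu]
  · intro s q' e hq
    rw [mem_singleton] at hq
    show F.nu _ = _
    rw [Function.update_of_ne (fun h => hq h.symm)]

theorem rot_R (F : FB n T) (hF : F.Full) (k l : Ix n) (q1 q2 q3 q4 : P) (h12 : q1 ≠ q2)
    (h13 : q1 ≠ q3) (h14 : q1 ≠ q4) (h23 : q2 ≠ q3) (h24 : q2 ≠ q4) (h34 : q3 ≠ q4) :
    Rot (F.V k l) (rho F k l) {q1, q2, q3, q4}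
      (fun s : P → Ix n => F.R (s q1) (s q2) (s q3) (s q4)) := by
  constructor
  · intro s
    rw [sum_insert (by simp [h12, h13, h14]), sum_insert (by simp [h23, h24]),
      sum_insert (by simp [h34]), sum_singleton]
    simp only [Function.update_self, Function.update_of_ne h12, Function.update_of_ne h13,
      Function.update_of_ne h14, Function.update_of_ne h23, Function.update_of_ne h24,
      Function.update_of_ne h34, Function.update_of_ne h12.symm, Function.update_of_ne h13.symm,
      Function.update_of_ne h14.symm, Function.update_of_ne h23.symm,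
      Function.update_of_ne h24.symm, Function.update_of_ne h34.symm]
    rw [sum_rho F k l (s q1) (fun e => F.R e (s q2) (s q3) (s q4)),
      sum_rho F k l (s q2) (fun e => F.R (s q1) e (s q3) (s q4)),
      sum_rho F k l (s q3) (fun e => F.R (s q1) (s q2) e (s q4)),
      sum_rho F k l (s q4) (fun e => F.R (s q1) (s q2) (s q3) e), hF.VR]
    ring
  · intro s q' e hq
    simp only [mem_insert, mem_singleton, not_or] at hq
    show F.R _ _ _ _ = _
    rw [Function.update_of_ne (fun h => hq.1 h.symm),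
      Function.update_of_ne (fun h => hq.2.1 h.symm),
      Function.update_of_ne (fun h => hq.2.2.1 h.symm),
      Function.update_of_ne (fun h => hq.2.2.2 h.symm)]

/-- the action on `S` -/
def VSh (F : FB n T) : Prop := ∀ k l a b, F.V k l (F.S a b) =
  F.dl l a * F.S k b - F.dl k a * F.S l b + F.dl l b * F.S a k - F.dl k b * F.S a l

theorem V_HS (F : FB n T) (hF : F.Full) (hS : VSh F) (k l d a c : Ix n) :
    F.V k l (F.H d (F.S a c)) = F.dl l d * F.H k (F.S a c) - F.dl k d * F.H l (F.S a c) +
      (F.dl l a * F.H d (F.S k c) - F.dl k a * F.H d (F.S l c)) +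
      (F.dl l c * F.H d (F.S a k) - F.dl k c * F.H d (F.S a l)) := by
  have h := hF.VH k l d (F.S a c)
  have h2 : F.V k l (F.H d (F.S a c)) = F.H d (F.V k l (F.S a c)) +
      (F.dl l d * F.H k (F.S a c) - F.dl k d * F.H l (F.S a c)) := by
    rw [← h]; ring
  rw [h2, hS k l a c]
  simp only [map_add, map_sub, D_dl_mul]
  ring

theorem V_Y (F : FB n T) (hF : F.Full) (hS : VSh F) (k l a c d : Ix n) :
    F.V k l (F.Y a c d) = (F.dl l a * F.Y k c d - F.dl k a * F.Y l c d) +
      (F.dl l c * F.Y a k d - F.dl k c * F.Y a l d) +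
      (F.dl l d * F.Y a c k - F.dl k d * F.Y a c l) := by
  unfold FB.Y
  rw [map_sub, V_HS F hF hS, V_HS F hF hS]
  ring

theorem rot_Y (F : FB n T) (hF : F.Full) (hS : VSh F) (k l : Ix n) (q1 q2 q3 : P) (h12 : q1 ≠ q2)
    (h13 : q1 ≠ q3) (h23 : q2 ≠ q3) :
    Rot (F.V k l) (rho F k l) {q1, q2, q3}
      (fun s : P → Ix n => F.Y (s q1) (s q2) (s q3)) := by
  constructor
  · intro s
    rw [sum_insert (by simp [h12, h13]), sum_insert (by simp [h23]), sum_singleton]
    simp only [Function.update_self, Function.update_of_ne h12, Function.update_of_ne h13,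
      Function.update_of_ne h23, Function.update_of_ne h12.symm, Function.update_of_ne h13.symm,
      Function.update_of_ne h23.symm]
    rw [sum_rho F k l (s q1) (fun e => F.Y e (s q2) (s q3)),
      sum_rho F k l (s q2) (fun e => F.Y (s q1) e (s q3)),
      sum_rho F k l (s q3) (fun e => F.Y (s q1) (s q2) e), V_Y F hF hS]
    ring
  · intro s q' e hq
    simp only [mem_insert, mem_singleton, not_or] at hq
    show F.Y _ _ _ = _
    rw [Function.update_of_ne (fun h => hq.1 h.symm),
      Function.update_of_ne (fun h => hq.2.1 h.symm),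
      Function.update_of_ne (fun h => hq.2.2 h.symm)]

end P4

/-! ### alternating sums -/

namespace P4

variable {m : ℕ}

/-- positions -/
abbrev Ps (m : ℕ) := Fin (2 * m + 1) ⊕ Fin (2 * m + 1)

/-- the alternating sum of a function of all positions -/
def al {B : Type} [CommRing B] (X : (Ps m → Fin (2 * m + 1)) → B) : B :=
  alt (fun s p => X (Sum.elim s p))

theorem al_congr {B : Type} [CommRing B] {X Y : (Ps m → Fin (2 * m + 1)) → B} (h : ∀ s, X s = Y s) :
    al X = al Y := by
  unfold al
  congr 1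
  funext s p
  exact h _

theorem al_add {B : Type} [CommRing B] (X Y : (Ps m → Fin (2 * m + 1)) → B) :
    al (fun s => X s + Y s) = al X + al Y := by
  unfold al alt
  rw [← sum_add_distrib]
  apply sum_congr rfl
  intro s _
  rw [← sum_add_distrib]
  apply sum_congr rfl
  intro p _
  rw [smul_add]

theorem al_mul {B : Type} [CommRing B] (c : B) (X : (Ps m → Fin (2 * m + 1)) → B) :
    al (fun s => c * X s) = c * al X := by
  unfold al alt
  rw [mul_sum]
  apply sum_congr rfl
  intro s _
  rw [mul_sum]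
  apply sum_congr rfl
  intro p _
  rw [mul_smul_comm]

theorem al_der {B : Type} [CommRing B] [Algebra ℝ B] (D : Derivation ℝ B B)
    (X : (Ps m → Fin (2 * m + 1)) → B) : D (al X) = al (fun s => D (X s)) := by
  unfold al alt
  rw [map_sum]
  apply sum_congr rfl
  intro s _
  rw [map_sum]
  apply sum_congr rfl
  intro p _
  exact map_zsmul D _ _

theorem al_rot (hPF1 : G_PF1) {B : Type} [CommRing B] [Algebra ℝ B]
    (ρ : Fin (2 * m + 1) → Fin (2 * m + 1) → B) (hρ : ∑ a, ρ a a = 0)
    (X : (Ps m → Fin (2 * m + 1)) → B) :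
    al (fun s => ∑ q, ∑ e, ρ (s q) e * X (Function.update s q e)) = 0 := by
  have hsplit : al (fun s => ∑ q, ∑ e, ρ (s q) e * X (Function.update s q e)) =
      al (fun s => ∑ i, ∑ e, ρ (s (Sum.inl i)) e * X (Function.update s (Sum.inl i) e)) +
      al (fun s => ∑ i, ∑ e, ρ (s (Sum.inr i)) e * X (Function.update s (Sum.inr i) e)) := by
    rw [← al_add]
    apply al_congr
    intro s
    rw [Fintype.sum_sum_type]
  rw [hsplit]
  have h1 : al (fun s => ∑ i, ∑ e, ρ (s (Sum.inl i)) e * X (Function.update s (Sum.inl i) e)) =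
      0 := by
    unfold al alt
    rw [sum_comm]
    apply sum_eq_zero
    intro p _
    have h := hPF1 (2 * m + 1) B ρ (fun s => X (Sum.elim s (p : Fin (2 * m + 1) → Fin (2 * m + 1))))
    rw [hρ, zero_mul] at h
    have h2 : (Equiv.Perm.sign p : ℤ) • (∑ s : Equiv.Perm (Fin (2 * m + 1)),
      (Equiv.Perm.sign s : ℤ) • ∑ i, ∑ e, ρ (s i) e *
        X (Sum.elim (Function.update (s : Fin (2 * m + 1) → Fin (2 * m + 1)) i e) p)) = 0 := by
      rw [h, smul_zero]
    rw [smul_sum] at h2
    rw [← h2]
    apply sum_congr rfl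
    intro s _
    rw [← mul_smul, mul_comm (Equiv.Perm.sign p : ℤ)]
    congr 1
    apply sum_congr rfl
    intro i _
    apply sum_congr rfl
    intro e _
    rw [Sum.elim_inl, Sum.update_elim_inl]
  have h2 : al (fun s => ∑ i, ∑ e, ρ (s (Sum.inr i)) e * X (Function.update s (Sum.inr i) e)) =
      0 := by
    unfold al alt
    apply sum_eq_zero
    intro s _
    have h := hPF1 (2 * m + 1) B ρ (fun p => X (Sum.elim (s : Fin (2 * m + 1) → Fin (2 * m + 1)) p))
    rw [hρ, zero_mul] at h
    have h2 : (Equiv.Perm.sign s : ℤ) • (∑ p : Equiv.Perm (Fin (2 * m + 1)),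
      (Equiv.Perm.sign p : ℤ) • ∑ i, ∑ e, ρ (p i) e *
        X (Sum.elim s (Function.update (p : Fin (2 * m + 1) → Fin (2 * m + 1)) i e))) = 0 := by
      rw [h, smul_zero]
    rw [smul_sum] at h2
    rw [← h2]
    apply sum_congr rfl
    intro p _
    rw [← mul_smul]
    congr 1
    apply sum_congr rfl
    intro i _
    apply sum_congr rfl
    intro e _
    rw [Sum.elim_inr, Sum.update_elim_inr]
  rw [h1, h2, add_zero]

theorem pe_ne_zero (j : Fin m) : pe j ≠ 0 := by
  intro h
  have := congrArg Fin.val h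
  simp [pe] at this

theorem po_ne_zero (j : Fin m) : po j ≠ 0 := by
  intro h
  have := congrArg Fin.val h
  simp [po] at this

theorem pe_ne_po (i j : Fin m) : pe i ≠ po j := by
  intro h
  have := congrArg Fin.val h
  simp only [pe, po] at this
  omega

theorem pe_inj {i j : Fin m} (h : i ≠ j) : pe i ≠ pe j := by
  intro h'
  have := congrArg Fin.val h'
  simp only [pe] at this
  exact h (Fin.ext (by omega))

theorem po_inj {i j : Fin m} (h : i ≠ j) : po i ≠ po j := by
  intro h'
  have := congrArg Fin.val h'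
  simp only [po] at this
  exact h (Fin.ext (by omega))

theorem pos_cases (i : Fin (2 * m + 1)) : i = 0 ∨ ∃ j : Fin m, i = pe j ∨ i = po j := by
  obtain ⟨v, hv⟩ := i
  rcases Nat.eq_zero_or_pos v with h | h
  · left
    apply Fin.ext
    simpa using h
  · right
    rcases Nat.even_or_odd' v with ⟨c, hc | hc⟩
    · refine ⟨⟨c - 1, by omega⟩, Or.inr ?_⟩
      apply Fin.ext
      simp only [po]
      omega
    · refine ⟨⟨c, by omega⟩, Or.inl ?_⟩
      apply Fin.ext
      simp only [pe]
      omega

/-- the positions of the factor `j` -/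
def Qj (j : Fin m) : Finset (Ps m) :=
  {Sum.inl (pe j), Sum.inl (po j), Sum.inr (pe j), Sum.inr (po j)}

theorem Qj_disj (i j : Fin m) (h : i ≠ j) : Disjoint (Qj i) (Qj j) := by
  rw [disjoint_left]
  intro q hq hq'
  simp only [Qj, mem_insert, mem_singleton] at hq hq'
  rcases hq with rfl | rfl | rfl | rfl <;>
  rcases hq' with h' | h' | h' | h' <;>
  first
  | exact pe_inj h (Sum.inl.inj h')
  | exact po_inj h (Sum.inl.inj h')
  | exact pe_inj h (Sum.inr.inj h')
  | exact po_inj h (Sum.inr.inj h')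
  | exact pe_ne_po _ _ (Sum.inl.inj h')
  | exact pe_ne_po _ _ (Sum.inr.inj h')
  | exact pe_ne_po _ _ (Sum.inl.inj h').symm
  | exact pe_ne_po _ _ (Sum.inr.inj h').symm
  | exact absurd h' (by simp)

variable {T : ℝ}

/-- the factor `j` -/
def Rj (F : FB (2 * m) T) (j : Fin m) (s : Ps m → Fin (2 * m + 1)) : F.B :=
  F.R (s (Sum.inl (pe j))) (s (Sum.inl (po j))) (s (Sum.inr (pe j))) (s (Sum.inr (po j)))

theorem rot_Rj (F : FB (2 * m) T) (hF : F.Full) (k l : Ix (2 * m)) (j : Fin m) :
    Rot (F.V k l) (rho F k l) (Qj j) (Rj F j) :=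
  rot_R F hF k l _ _ _ _ (fun h => pe_ne_po _ _ (Sum.inl.inj h)) (by simp) (by simp) (by simp)
    (by simp) (fun h => pe_ne_po _ _ (Sum.inr.inj h))

theorem rot_nn (F : FB (2 * m) T) (hF : F.Full) (k l : Ix (2 * m)) :
    Rot (F.V k l) (rho F k l) ({Sum.inl 0} ∪ {Sum.inr 0} : Finset (Ps m))
      (fun s => F.nu (s (Sum.inl 0)) * F.nu (s (Sum.inr 0))) :=
  (rot_nu F hF k l (Sum.inl 0)).mul (rot_nu F hF k l (Sum.inr 0)) (by simp)

/-- the integrand of `pf` -/
def Xf (F : FB (2 * m) T) (s : Ps m → Fin (2 * m + 1)) : F.B :=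
  F.nu (s (Sum.inl 0)) * F.nu (s (Sum.inr 0)) * ∏ j : Fin m, Rj F j s

theorem rot_pf (F : FB (2 * m) T) (hF : F.Full) (k l : Ix (2 * m)) :
    Rot (F.V k l) (rho F k l) (univ : Finset (Ps m)) (Xf F) := by
  have h := (rot_nn F hF k l).mul (Rot.prod (rot_Rj F hF k l) Qj_disj univ) (by
    rw [disjoint_left]
    intro q hq hq'
    rw [mem_biUnion] at hq'
    obtain ⟨j, _, hj⟩ := hq'
    simp only [Qj, mem_insert, mem_singleton, mem_union] at hq hj
    rcases hq with rfl | rfl <;> rcases hj with h' | h' | h' | h' <;>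
    first
    | exact pe_ne_zero _ (Sum.inl.inj h').symm
    | exact po_ne_zero _ (Sum.inl.inj h').symm
    | exact pe_ne_zero _ (Sum.inr.inj h').symm
    | exact po_ne_zero _ (Sum.inr.inj h').symm
    | exact absurd h' (by simp))
  have hQ : ({Sum.inl 0} ∪ {Sum.inr 0} : Finset (Ps m)) ∪ univ.biUnion Qj = univ := by
    rw [eq_univ_iff_forall]
    intro q
    rw [mem_union, mem_union, mem_singleton, mem_singleton, mem_biUnion]
    rcases q with i | i
    · rcases pos_cases i with rfl | ⟨j, rfl | rfl⟩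
      · exact Or.inl (Or.inl rfl)
      · exact Or.inr ⟨j, mem_univ _, by simp [Qj]⟩
      · exact Or.inr ⟨j, mem_univ _, by simp [Qj]⟩
    · rcases pos_cases i with rfl | ⟨j, rfl | rfl⟩
      · exact Or.inl (Or.inr rfl)
      · exact Or.inr ⟨j, mem_univ _, by simp [Qj]⟩
      · exact Or.inr ⟨j, mem_univ _, by simp [Qj]⟩
  rw [hQ] at h
  exact h

theorem pf_eq (F : FB (2 * m) T) : pf F = al (Xf F) := rfl

theorem VI_pf (hPF1 : G_PF1) (F : FB (2 * m) T) (hF : F.Full) : F.VI (pf F) := by
  intro k l
  have h1 : F.V k l (pf F) = al (fun s => F.V k l (Xf F s)) := al_der (F.V k l) (Xf F)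
  have h2 : al (fun s => F.V k l (Xf F s)) =
      al (fun s => ∑ q, ∑ e, rho F k l (s q) e * Xf F (Function.update s q e)) :=
    al_congr (rot_pf F hF k l).der
  rw [h1, h2]
  exact al_rot hPF1 (rho F k l) (tr_rho F k l) (Xf F)

/-- the product without the index `s (pe i)` -/
def Ai (F : FB (2 * m) T) (i : Fin m) (s : Ps m → Fin (2 * m + 1)) : F.B :=
  F.nu (s (Sum.inl 0)) * F.nu (s (Sum.inr 0)) *
    (F.Y (s (Sum.inl (po i))) (s (Sum.inr (pe i))) (s (Sum.inr (po i))) *
      ∏ j ∈ univ.erase i, Rj F j s)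

theorem rot_Ai (F : FB (2 * m) T) (hF : F.Full) (hS : VSh F) (k l : Ix (2 * m)) (i : Fin m) :
    Rot (F.V k l) (rho F k l) (univ.erase (Sum.inl (pe i)) : Finset (Ps m)) (Ai F i) := by
  have hY : Rot (F.V k l) (rho F k l)
      ({Sum.inl (po i), Sum.inr (pe i), Sum.inr (po i)} : Finset (Ps m))
      (fun s => F.Y (s (Sum.inl (po i))) (s (Sum.inr (pe i))) (s (Sum.inr (po i)))) :=
    rot_Y F hF hS k l _ _ _ (by simp) (by simp) (fun h => pe_ne_po _ _ (Sum.inr.inj h))
  have h1 := hY.mul (Rot.prod (rot_Rj F hF k l) Qj_disj (univ.erase i)) (by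
    rw [disjoint_left]
    intro q hq hq'
    rw [mem_biUnion] at hq'
    obtain ⟨j, hji, hj⟩ := hq'
    have hij : i ≠ j := fun h => (mem_erase.mp hji).1 h.symm
    have hd := disjoint_left.mp (Qj_disj i j hij)
    apply hd _ hj
    simp only [Qj, mem_insert, mem_singleton] at hq ⊢
    rcases hq with h | h | h
    · exact Or.inr (Or.inl h)
    · exact Or.inr (Or.inr (Or.inl h))
    · exact Or.inr (Or.inr (Or.inr h)))
  have h := (rot_nn F hF k l).mul h1 (by
    rw [disjoint_left]
    intro q hq hq'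
    rw [mem_union, mem_biUnion] at hq'
    have hq'' : ∃ j, q ∈ Qj j := by
      rcases hq' with h | ⟨j, _, hj⟩
      · refine ⟨i, ?_⟩
        simp only [Qj, mem_insert, mem_singleton] at h ⊢
        rcases h with h | h | h
        · exact Or.inr (Or.inl h)
        · exact Or.inr (Or.inr (Or.inl h))
        · exact Or.inr (Or.inr (Or.inr h))
      · exact ⟨j, hj⟩
    obtain ⟨j, hj⟩ := hq''
    simp only [Qj, mem_insert, mem_singleton, mem_union] at hq hj
    rcases hq with rfl | rfl <;> rcases hj with h' | h' | h' | h' <;>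
    first
    | exact pe_ne_zero _ (Sum.inl.inj h').symm
    | exact po_ne_zero _ (Sum.inl.inj h').symm
    | exact pe_ne_zero _ (Sum.inr.inj h').symm
    | exact po_ne_zero _ (Sum.inr.inj h').symm
    | exact absurd h' (by simp))
  have hQ : ({Sum.inl 0} ∪ {Sum.inr 0} : Finset (Ps m)) ∪
      ({Sum.inl (po i), Sum.inr (pe i), Sum.inr (po i)} ∪ (univ.erase i).biUnion Qj) =
      univ.erase (Sum.inl (pe i)) := by
    ext q
    rw [mem_erase, mem_union, mem_union, mem_union, mem_singleton, mem_singleton, mem_biUnion]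
    constructor
    · intro hq
      refine ⟨?_, mem_univ _⟩
      rcases hq with (h | h) | h | ⟨j, hji, hj⟩
      · rw [h]; intro h'; exact pe_ne_zero _ (Sum.inl.inj h').symm
      · rw [h]; simp
      · simp only [mem_insert, mem_singleton] at h
        rcases h with h | h | h
        · rw [h]; intro h'; exact pe_ne_po _ _ (Sum.inl.inj h').symm
        · rw [h]; simp
        · rw [h]; simp
      · have hij : i ≠ j := fun h => (mem_erase.mp hji).1 h.symm
        intro h'
        apply disjoint_left.mp (Qj_disj i j hij) _ hj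
        rw [h']
        simp [Qj]
    · rintro ⟨hq, _⟩
      rcases q with a | a
      · rcases pos_cases a with rfl | ⟨j, rfl | rfl⟩
        · exact Or.inl (Or.inl rfl)
        · by_cases hj : j = i
          · rw [hj] at hq
            exact absurd rfl hq
          · exact Or.inr (Or.inr ⟨j, mem_erase.mpr ⟨hj, mem_univ _⟩, by simp [Qj]⟩)
        · by_cases hj : j = i
          · rw [hj]
            exact Or.inr (Or.inl (by simp))
          · exact Or.inr (Or.inr ⟨j, mem_erase.mpr ⟨hj, mem_univ _⟩, by simp [Qj]⟩)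
      · rcases pos_cases a with rfl | ⟨j, rfl | rfl⟩
        · exact Or.inl (Or.inr rfl)
        · by_cases hj : j = i
          · rw [hj]
            exact Or.inr (Or.inl (by simp))
          · exact Or.inr (Or.inr ⟨j, mem_erase.mpr ⟨hj, mem_univ _⟩, by simp [Qj]⟩)
        · by_cases hj : j = i
          · rw [hj]
            exact Or.inr (Or.inl (by simp))
          · exact Or.inr (Or.inr ⟨j, mem_erase.mpr ⟨hj, mem_univ _⟩, by simp [Qj]⟩)
  rw [hQ] at h
  exact h

theorem pw_eq (F : FB (2 * m) T) (x : Ix (2 * m)) :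
    pw F x = ∑ i : Fin m, al (fun s => (if s (Sum.inl (pe i)) = x then (-2 : F.B) else 0) * Ai F i s) :=
  rfl

theorem D_two (F : FB (2 * m) T) (D : Derivation ℝ F.B F.B) (h : Prop) [Decidable h] (f : F.B) :
    D ((if h then (-2 : F.B) else 0) * f) = (if h then (-2 : F.B) else 0) * D f := by
  by_cases hh : h
  · rw [if_pos hh]
    have : (-2 : F.B) * f = -(f + f) := by ring
    rw [this, map_neg, map_add]
    ring
  · rw [if_neg hh, zero_mul, zero_mul, map_zero]

theorem if_dl (F : FB (2 * m) T) (a x : Ix (2 * m)) :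
    (if a = x then (-2 : F.B) else 0) = -2 * F.dl a x := by
  unfold FB.dl
  by_cases h : a = x
  · rw [if_pos h, if_pos h, mul_one]
  · rw [if_neg h, if_neg h, mul_zero]

theorem V_term (hPF1 : G_PF1) (F : FB (2 * m) T) (hF : F.Full) (hS : VSh F) (k l x : Ix (2 * m))
    (i : Fin m) :
    F.V k l (al (fun s => (if s (Sum.inl (pe i)) = x then (-2 : F.B) else 0) * Ai F i s)) =
    F.dl l x * al (fun s => (if s (Sum.inl (pe i)) = k then (-2 : F.B) else 0) * Ai F i s) -
    F.dl k x * al (fun s => (if s (Sum.inl (pe i)) = l then (-2 : F.B) else 0) * Ai F i s) := by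
  have hr := rot_Ai F hF hS k l i
  rw [al_der]
  have h0 := al_rot hPF1 (rho F k l) (tr_rho F k l)
    (fun s => (if s (Sum.inl (pe i)) = x then (-2 : F.B) else 0) * Ai F i s)
  have key : ∀ s : Ps m → Fin (2 * m + 1),
      F.V k l ((if s (Sum.inl (pe i)) = x then (-2 : F.B) else 0) * Ai F i s) =
      (∑ q, ∑ e, rho F k l (s q) e *
        ((if Function.update s q e (Sum.inl (pe i)) = x then (-2 : F.B) else 0) *
          Ai F i (Function.update s q e))) +
      (F.dl l x * ((if s (Sum.inl (pe i)) = k then (-2 : F.B) else 0) * Ai F i s) +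
        (-F.dl k x) * ((if s (Sum.inl (pe i)) = l then (-2 : F.B) else 0) * Ai F i s)) := by
    intro s
    rw [D_two, hr.der, ← add_sum_erase univ _ (mem_univ (Sum.inl (pe i) : Ps m))]
    have h1 : (∑ e, rho F k l (s (Sum.inl (pe i))) e *
        ((if Function.update s (Sum.inl (pe i)) e (Sum.inl (pe i)) = x then (-2 : F.B) else 0) *
          Ai F i (Function.update s (Sum.inl (pe i)) e))) =
        -2 * rho F k l (s (Sum.inl (pe i))) x * Ai F i s := by
      have h2 : ∀ e, rho F k l (s (Sum.inl (pe i))) e *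
        ((if Function.update s (Sum.inl (pe i)) e (Sum.inl (pe i)) = x then (-2 : F.B) else 0) *
          Ai F i (Function.update s (Sum.inl (pe i)) e)) =
          F.dl x e * (-2 * rho F k l (s (Sum.inl (pe i))) e * Ai F i s) := by
        intro e
        rw [Function.update_self, hr.ind s _ e (notMem_erase _ _), if_dl, dl_comm F e x]
        ring
      rw [sum_congr rfl fun e _ => h2 e, sum_dl]
    have h3 : (if s (Sum.inl (pe i)) = x then (-2 : F.B) else 0) *
        (∑ q ∈ univ.erase (Sum.inl (pe i)), ∑ e, rho F k l (s q) e * Ai F i (Function.update s q e)) =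
        ∑ q ∈ univ.erase (Sum.inl (pe i)), ∑ e, rho F k l (s q) e *
        ((if Function.update s q e (Sum.inl (pe i)) = x then (-2 : F.B) else 0) *
          Ai F i (Function.update s q e)) := by
      rw [mul_sum]
      apply sum_congr rfl
      intro q hq
      rw [mul_sum]
      apply sum_congr rfl
      intro e _
      rw [Function.update_of_ne (fun h => (mem_erase.mp hq).1 h.symm)]
      ring
    rw [h1, h3, if_dl, if_dl, dl_comm F (s (Sum.inl (pe i))) k, dl_comm F (s (Sum.inl (pe i))) l]
    unfold rho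
    ring
  rw [al_congr key, al_add, h0, zero_add, al_add, al_mul, al_mul]
  ring

end P4

open P4 in
theorem g_PF4 (hPF1 : G_PF1) : G_PF4 := by
  intro m T F hF hS
  refine ⟨VI_pf hPF1 F hF, fun k l x => ?_⟩
  rw [pw_eq, pw_eq, pw_eq, map_sum, mul_sum, mul_sum, ← sum_sub_distrib]
  apply sum_congr rfl
  intro i _
  exact V_term hPF1 F hF hS k l x i

end Pool.Agent.Helper47.FLG
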